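import Pool.Agent.H144.TS.Stm

set_option autoImplicit false

/-!
# TEN: tensor splitting over a frame
-/

namespace Pool.Agent.H144.TS

open Finset

namespace TEN

section
variable {Ω : Type} {p : ℕ}

/-- the slice on which the coordinate vanishes -/
abbrev Sl (ap : Ω → ZMod p) : Type := {x : Ω // ap x = 0}

/-- a free action with an equivariant coordinate -/
structure One (Tp : ZMod p → Ω → Ω) (ap : Ω → ZMod p) : Prop where
  zero : ∀ x, Tp 0 x = x
  add : ∀ b c x, Tp (b + c) x = Tp b (Tp c x)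
  eqv : ∀ b x, ap (Tp b x) = b + ap x

variable {Tp : ZMod p → Ω → Ω} {ap : Ω → ZMod p}

/-- the projection to the slice -/
def yy (h : One Tp ap) (ω : Ω) : Sl ap :=
  ⟨Tp (-(ap ω)) ω, by rw [h.eqv, neg_add_cancel]⟩

/-- the product decomposition -/
def ee (h : One Tp ap) : Ω ≃ ZMod p × Sl ap where
  toFun ω := (ap ω, yy h ω)
  invFun x := Tp x.1 x.2.1
  left_inv ω := by
    change Tp (ap ω) (Tp (-(ap ω)) ω) = ω
    rw [← h.add, add_neg_cancel, h.zero]
  right_inv x := by
    have h1 : ap (Tp x.1 x.2.1) = x.1 := by rw [h.eqv, x.2.2, add_zero]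
    refine Prod.ext h1 (Subtype.ext ?_)
    change Tp (-(ap (Tp x.1 x.2.1))) (Tp x.1 x.2.1) = x.2.1
    rw [h1, ← h.add, neg_add_cancel, h.zero]

/-- functions on the product as functions on `Ω` -/
def Psi (K : Type) [Field K] (h : One Tp ap) : (ZMod p → Sl ap → K) →ₗ[K] (Ω → K) where
  toFun c := fun ω => c (ap ω) (yy h ω)
  map_add' _ _ := rfl
  map_smul' _ _ := rfl

variable {K : Type} [Field K]

lemma Psi_apply (h : One Tp ap) (c : ZMod p → Sl ap → K) (ω : Ω) :
    Psi K h c ω = c (ap ω) (yy h ω) := rfl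

lemma Psi_curry (h : One Tp ap) (c : Ω → K) : Psi K h (fun b x => c (Tp b x.1)) = c := by
  funext ω
  change c (Tp (ap ω) (Tp (-(ap ω)) ω)) = c ω
  rw [← h.add, add_neg_cancel, h.zero]

lemma Psi_T (h : One Tp ap) (c : ZMod p → Sl ap → K) (b : ZMod p) (ω : Ω) :
    Psi K h c (Tp b ω) = c (b + ap ω) (yy h ω) := by
  have h1 : yy h (Tp b ω) = yy h ω := by
    apply Subtype.ext
    change Tp (-(ap (Tp b ω))) (Tp b ω) = Tp (-(ap ω)) ω
    rw [h.eqv, ← h.add]
    congr 1
    ring
  rw [Psi_apply, h.eqv, h1]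

lemma Psi_U (h : One Tp ap) (U : Ω → Ω) (U' : Sl ap → Sl ap) (hU1 : ∀ ω, ap (U ω) = ap ω)
    (hU2 : ∀ b ω, Tp b (U ω) = U (Tp b ω)) (hU' : ∀ x, (U' x).1 = U x.1)
    (c : ZMod p → Sl ap → K) (ω : Ω) : Psi K h c (U ω) = c (ap ω) (U' (yy h ω)) := by
  have h1 : yy h (U ω) = U' (yy h ω) := by
    apply Subtype.ext
    rw [hU']
    change Tp (-(ap (U ω))) (U ω) = U (Tp (-(ap ω)) ω)
    rw [hU1, hU2]
  rw [Psi_apply, hU1, h1]

lemma hamming_Psi [Fintype Ω] [Fintype (ZMod p)] [Fintype (Sl ap)] [DecidableEq K]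
    (h : One Tp ap) (f : ZMod p → K) (g : Sl ap → K) :
    hammingNorm (Psi K h (fun x => f x • g)) = hammingNorm f * hammingNorm g := by
  classical
  unfold hammingNorm
  rw [← card_product]
  refine card_bij (fun ω _ => ee h ω) ?_ ?_ ?_
  · intro ω hω
    simp only [mem_filter, mem_univ, true_and, mem_product] at hω ⊢
    rw [Psi_apply, Pi.smul_apply, smul_eq_mul] at hω
    exact ⟨left_ne_zero_of_mul hω, right_ne_zero_of_mul hω⟩
  · intro x _ y _ hxy
    exact (ee h).injective hxy
  · intro x hx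
    refine ⟨(ee h).symm x, ?_, by simp⟩
    simp only [mem_filter, mem_univ, true_and, mem_product] at hx ⊢
    have h1 : ee h ((ee h).symm x) = x := by simp
    have h2 : ap ((ee h).symm x) = x.1 := congrArg Prod.fst h1
    have h3 : yy h ((ee h).symm x) = x.2 := congrArg Prod.snd h1
    rw [Psi_apply, Pi.smul_apply, smul_eq_mul, h2, h3]
    exact mul_ne_zero hx.1 hx.2

end

end TEN

open TEN

/-- TEN. -/
theorem t_ten (hO : Pool.Agent.H633.CY.S_ONE) : S_TEN := by
  intro K _ _ _ S
  induction S using Finset.induction_on with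
  | empty =>
    intro Ω _ T a _ _ C _ hne
    have h1 : ∃ c ∈ C, c ≠ 0 := by
      by_contra h
      push Not at h
      apply hne
      intro c hc
      rw [h c hc]
      exact Submodule.zero_mem _
    obtain ⟨c, hc, hc0⟩ := h1
    refine ⟨c, hc, hc0, ?_⟩
    simpa using hammingNorm_le_card_fintype (x := c)
  | insert p S hpS ih =>
    intro Ω _ T a hprime hfr C hC hne
    classical
    obtain ⟨Q, hQ⟩ : ∃ Q, Q = Fintype.card K := ⟨_, rfl⟩
    rw [← hQ] at hprime hC ⊢
    obtain ⟨f1, f2, f3, f4, f5⟩ := hfr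
    obtain ⟨c1, c2⟩ := hC
    have hpi : p ∈ insert p S := mem_insert_self p S
    have hSi : ∀ p' ∈ S, p' ∈ insert p S := fun p' h => mem_insert_of_mem h
    have hSne : ∀ p' ∈ S, p' ≠ p := fun p' h h' => hpS (h' ▸ h)
    obtain ⟨hpp, hpQ⟩ := hprime p hpi
    have hNe : NeZero p := ⟨hpp.ne_zero⟩
    have h : One (T p) (a p) := ⟨f1 p hpi, f2 p hpi, f3 p hpi⟩
    -- the frame on the slice
    obtain ⟨T', hT'⟩ : ∃ T' : (p' : ℕ) → ZMod p' → Sl (a p) → Sl (a p),
        ∀ p' ∈ S, ∀ b x, (T' p' b x).1 = T p' b x.1 := by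
      refine ⟨fun p' b x => if hx : a p (T p' b x.1) = 0 then ⟨T p' b x.1, hx⟩ else x, ?_⟩
      intro p' hp' b x
      have hx : a p (T p' b x.1) = 0 := by
        rw [f4 p' (hSi p' hp') p hpi (hSne p' hp'), x.2]
      change (if hx : a p (T p' b x.1) = 0 then (⟨T p' b x.1, hx⟩ : Sl (a p)) else x).1 = _
      rw [dif_pos hx]
    obtain ⟨a', ha'⟩ : ∃ a' : (p' : ℕ) → Sl (a p) → ZMod p', ∀ p' x, a' p' x = a p' x.1 :=
      ⟨fun p' x => a p' x.1, fun _ _ => rfl⟩
    have hfr' : Frame S T' a' := by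
      refine ⟨?_, ?_, ?_, ?_, ?_⟩
      · intro p' hp' x
        apply Subtype.ext
        rw [hT' p' hp', f1 p' (hSi p' hp')]
      · intro p' hp' b c x
        apply Subtype.ext
        rw [hT' p' hp', hT' p' hp', hT' p' hp', f2 p' (hSi p' hp')]
      · intro p' hp' b x
        rw [ha', ha', hT' p' hp', f3 p' (hSi p' hp')]
      · intro p' hp' p'' hp'' hne' b x
        rw [ha', ha', hT' p' hp', f4 p' (hSi p' hp') p'' (hSi p'' hp'') hne']
      · intro p' hp' p'' hp'' hne' b b' x
        apply Subtype.ext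
        rw [hT' p' hp', hT' p'' hp'', hT' p'' hp'', hT' p' hp',
          f5 p' (hSi p' hp') p'' (hSi p'' hp'') hne']
    -- the maps of the other primes
    have hPT : ∀ p' ∈ S, ∀ (β : ZMod p' → ZMod p') (c : ZMod p → Sl (a p) → K) (ω : Ω),
        Psi K h c (T p' (β (a p' ω)) ω) =
          c (a p ω) (T' p' (β (a' p' (yy h ω))) (yy h ω)) := by
      intro p' hp' β c ω
      refine Psi_U h (fun ω => T p' (β (a p' ω)) ω) (fun x => T' p' (β (a' p' x)) x) ?_ ?_ ?_ c ω
      · intro ω
        exact f4 p' (hSi p' hp') p hpi (hSne p' hp') _ _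
      · intro b ω
        rw [f4 p hpi p' (hSi p' hp') (hSne p' hp').symm, f5 p hpi p' (hSi p' hp') (hSne p' hp').symm]
      · intro x
        rw [hT' p' hp', ha']
    -- the code on the product
    obtain ⟨C1, hC1⟩ : ∃ C1 : Submodule K (ZMod p → Sl (a p) → K), C1 = C.comap (Psi K h) := ⟨_, rfl⟩
    have mem1 : ∀ c : ZMod p → Sl (a p) → K, c ∈ C1 ↔ Psi K h c ∈ C := by
      intro c
      rw [hC1, Submodule.mem_comap]
    have htr : ∀ b : ZMod p, ∀ c ∈ C1, (fun x => c (x + b)) ∈ C1 := by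
      intro b c hc
      rw [mem1] at hc ⊢
      have h1 : Psi K h (fun x => c (x + b)) = fun ω => Psi K h c (T p b ω) := by
        funext ω
        rw [Psi_T, Psi_apply, add_comm]
      rw [h1]
      exact c1 p hpi b _ hc
    have hqs : ∀ c ∈ C1, (fun x => c (Fintype.card K • x)) ∈ C1 := by
      intro c hc
      rw [mem1] at hc ⊢
      have h1 : Psi K h (fun x => c (Fintype.card K • x)) =
          fun ω => Psi K h c (T p (((Q : ZMod p) - 1) * a p ω) ω) := by
        funext ω
        rw [Psi_T, Psi_apply, ← hQ]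
        have h2 : Q • a p ω = ((Q : ZMod p) - 1) * a p ω + a p ω := by
          rw [nsmul_eq_mul]
          ring
        rw [h2]
      rw [h1]
      exact c2 p hpi _ hc
    -- a word which is not in the sum of the invariant spaces
    obtain ⟨W, hW⟩ : ∃ W : Submodule K (Ω → K), W = ⨆ p' ∈ insert p S, InvT K T p' := ⟨_, rfl⟩
    obtain ⟨V, hV⟩ : ∃ V : Submodule K (Sl (a p) → K), V = ⨆ p' ∈ S, InvT K T' p' := ⟨_, rfl⟩
    rw [← hW] at hne
    obtain ⟨c0, hc0, hc0W⟩ := SetLike.not_le_iff_exists.1 hne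
    obtain ⟨c, hcdef⟩ : ∃ c : ZMod p → Sl (a p) → K, c = fun b x => c0 (T p b x.1) := ⟨_, rfl⟩
    have hPc : Psi K h c = c0 := by rw [hcdef]; exact Psi_curry h c0
    have hc1 : c ∈ C1 := by rw [mem1, hPc]; exact hc0
    have hInvW : ∀ p' ∈ insert p S, InvT K T p' ≤ W := by
      intro p' hp'
      rw [hW]
      exact le_iSup₂_of_le p' hp' le_rfl
    have hslice : ∀ b : ZMod p,
        V ≤ W.comap ((Psi K h).comp (LinearMap.single K (fun _ : ZMod p => Sl (a p) → K) b)) := by
      intro b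
      rw [hV]
      refine iSup₂_le ?_
      intro p' hp' v hv
      rw [Submodule.mem_comap]
      refine hInvW p' (hSi p' hp') ?_
      intro b' ω
      rw [LinearMap.comp_apply, hPT p' hp' (fun _ => b'), Psi_apply]
      by_cases hb : a p ω = b
      · rw [hb]
        simp only [LinearMap.single_apply, Pi.single_eq_same]
        exact hv b' _
      · simp only [LinearMap.single_apply, Pi.single_eq_of_ne hb]
        rfl
    obtain ⟨b, b', hbb⟩ : ∃ b b' : ZMod p, c b - c b' ∉ V := by
      by_contra hcon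
      push Not at hcon
      apply hc0W
      have h1 : c0 = Psi K h (fun _ => c 0) +
          ∑ b : ZMod p, (Psi K h).comp
            (LinearMap.single K (fun _ : ZMod p => Sl (a p) → K) b) (c b - c 0) := by
        have h2 : c = (fun _ => c 0) +
            ∑ b : ZMod p, LinearMap.single K (fun _ : ZMod p => Sl (a p) → K) b (c b - c 0) := by
          funext b
          rw [Pi.add_apply, Finset.sum_apply]
          simp only [LinearMap.single_apply]
          rw [sum_eq_single b]
          · rw [Pi.single_eq_same]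
            abel
          · intro b' _ hb'
            exact Pi.single_eq_of_ne hb'.symm _
          · simp
        conv_lhs => rw [← hPc, h2, map_add, map_sum]
        rfl
      rw [h1]
      refine W.add_mem ?_ (W.sum_mem fun b _ => ?_)
      · refine hInvW p hpi ?_
        intro b ω
        rw [Psi_T, Psi_apply]
      · exact hslice b (hcon b 0)
    obtain ⟨l, hl1, hl2⟩ := Submodule.exists_le_ker_of_notMem hbb
    obtain ⟨f, hf0, hfw, m0, hm0, hfm⟩ := hO K (ZMod p) (Sl (a p) → K) p hpp (ZMod.card p)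
      (by rw [← hQ]; exact hpQ) C1 htr hqs l c hc1
      ⟨b, b', fun h => hl1 (by rw [map_sub, h, sub_self])⟩
    rw [← hQ] at hfw
    -- the code on the slice
    obtain ⟨J, hJ⟩ : ∃ J : Submodule K (Sl (a p) → K),
        ∀ m1 : Sl (a p) → K, m1 ∈ J ↔ (fun x => f x • m1) ∈ C1 := by
      refine ⟨C1.comap (LinearMap.pi fun x : ZMod p => f x • LinearMap.id), ?_⟩
      intro m1
      rw [Submodule.mem_comap]
      rfl
    have hJβ : ∀ p' ∈ S, ∀ (β : ZMod p' → ZMod p'),
        (∀ c ∈ C, (fun ω => c (T p' (β (a p' ω)) ω)) ∈ C) →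
        ∀ m1 ∈ J, (fun x => m1 (T' p' (β (a' p' x)) x)) ∈ J := by
      intro p' hp' β hβ m1 hm1
      rw [hJ, mem1] at hm1 ⊢
      have h1 : Psi K h (fun x => f x • fun y => m1 (T' p' (β (a' p' y)) y)) =
          fun ω => Psi K h (fun x => f x • m1) (T p' (β (a p' ω)) ω) := by
        funext ω
        rw [hPT p' hp' β, Psi_apply]
        rfl
      rw [h1]
      exact hβ _ hm1
    have hJfc : FrameCode (Fintype.card K) S T' a' J := by
      rw [← hQ]
      constructor
      · intro p' hp' b m1 hm1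
        exact hJβ p' hp' (fun _ => b) (fun c hc => c1 p' (hSi p' hp') b c hc) m1 hm1
      · intro p' hp' m1 hm1
        exact hJβ p' hp' (fun z => ((Q : ZMod p') - 1) * z) (fun c hc => c2 p' (hSi p' hp') c hc)
          m1 hm1
    have hJV : ¬ J ≤ ⨆ p' ∈ S, InvT K T' p' := by
      rw [← hV]
      intro h'
      have h1 : m0 ∈ V := h' ((hJ m0).2 hfm)
      exact hm0 (LinearMap.mem_ker.1 (hl2 h1))
    obtain ⟨g, hgJ, hg0, hgw⟩ := ih (Sl (a p)) T' a'
      (fun p' hp' => by rw [← hQ]; exact hprime p' (hSi p' hp')) hfr' J hJfc hJV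
    rw [← hQ] at hgw
    refine ⟨Psi K h (fun x => f x • g), (mem1 _).1 ((hJ g).1 hgJ), ?_, ?_⟩
    · intro h0
      have h1 : hammingNorm f * hammingNorm g = 0 := by
        rw [← hamming_Psi h f g, h0]
        exact hammingNorm_zero
      rcases mul_eq_zero.1 h1 with h2 | h2
      · exact hf0 (hammingNorm_eq_zero.1 h2)
      · exact hg0 (hammingNorm_eq_zero.1 h2)
    · have hcard : Fintype.card Ω = p * Fintype.card (Sl (a p)) := by
        rw [Fintype.card_congr (ee h), Fintype.card_prod, ZMod.card]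
      rw [hamming_Psi, card_insert_of_notMem hpS, hcard]
      calc (Q + 1) ^ (S.card + 1) * (hammingNorm f * hammingNorm g)
          = ((Q + 1) * hammingNorm f) * ((Q + 1) ^ S.card * hammingNorm g) := by ring
        _ ≤ (Q * p) * (Q ^ S.card * Fintype.card (Sl (a p))) := Nat.mul_le_mul hfw hgw
        _ = Q ^ (S.card + 1) * (p * Fintype.card (Sl (a p))) := by ring

end Pool.Agent.H144.TS
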